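import Pool.Agent.W503.TCF.Pairs

/-!
# Close pairs of ordinates of zeta zeros, on the Riemann hypothesis, from triple correlation

Assume the Riemann hypothesis.  For `0 < α < β` with `G β = (53/60 - 79/600 π² β²)²` (the base of
the square being positive) and `D β = 2 G β - 1037/1000 ≥ 1/8`, the number `N(T; α, β)` of ordered
pairs of ordinates in `(0, T]` whose difference times `log T / 2π` lies in `[α, β]` is at most
`(1/2) (v / (v + D β ²) + o(1)) (T / 2π) log T` with `v = 151/1250`.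
-/

open Filter Topology Complex

namespace Pool.Agent.Results.MP_8958e8_nt.ClosePairsTriple

/-- the nontrivial zeros of zeta with ordinate in `(0, T]` -/
def zeros (T : ℝ) : Set ℂ :=
  {s : ℂ | riemannZeta s = 0 ∧ 0 < s.re ∧ s.re < 1 ∧ 0 < s.im ∧ s.im ≤ T}

/-- the multiplicity of a zero -/
noncomputable def mult (s : ℂ) : ℕ := analyticOrderNatAt riemannZeta s

/-- `N(T; α, β)`: the number of ordered pairs of zeros in `zeros T`, counted with multiplicity,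
with difference of the ordinates times `log T / 2π` in `[α, β]` -/
noncomputable def N (T α β : ℝ) : ℕ :=
  ∑ᶠ s ∈ zeros T, ∑ᶠ s' ∈ {s' : ℂ | s' ∈ zeros T ∧
    α ≤ (s.im - s'.im) * Real.log T / (2 * Real.pi) ∧
    (s.im - s'.im) * Real.log T / (2 * Real.pi) ≤ β}, mult s * mult s'

/-- the base of the square in the kernel bound -/
noncomputable def B (β : ℝ) : ℝ := 53 / 60 - 79 / 600 * Real.pi ^ 2 * β ^ 2

/-- the gap `D β = 2 (B β)² - 1037/1000` -/
noncomputable def D (β : ℝ) : ℝ := 2 * B β ^ 2 - 1037 / 1000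

lemma zeros_eq (T : ℝ) : zeros T = ((H343.ZSide.Z0 T : Finset ℂ) : Set ℂ) := by
  ext s
  rw [Finset.mem_coe, TC.GlobAux.mem_Z0]
  simp only [zeros, Set.mem_ofPred_eq]
  tauto

/-- the sets of zeros that are summed over are finite -/
theorem zeros_finite (T : ℝ) : (zeros T).Finite := by
  rw [zeros_eq]
  exact Finset.finite_toSet _

lemma N_le (hRH : RiemannHypothesis) (T α β : ℝ) (hT : 1 < T) (hα : 0 < α) :
    N T α β ≤ ∑ g ∈ TC.ordT T, ∑ g' ∈ (TC.ordT T).filter (fun g' => 0 < g - g' ∧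
        g - g' ≤ 2 * Real.pi * β / Real.log T), TC.mu g * TC.mu g' := by
  classical
  have hlog : 0 < Real.log T := Real.log_pos hT
  have hpi := Real.pi_pos
  rw [← Pool.Agent.W503.TCF.conv hRH T (fun g g' => 0 < g - g' ∧
        g - g' ≤ 2 * Real.pi * β / Real.log T)]
  unfold N
  rw [zeros_eq, finsum_mem_coe_finset]
  refine Finset.sum_le_sum fun s _ => ?_
  have hfin : {s' : ℂ | s' ∈ ((H343.ZSide.Z0 T : Finset ℂ) : Set ℂ) ∧
      α ≤ (s.im - s'.im) * Real.log T / (2 * Real.pi) ∧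
      (s.im - s'.im) * Real.log T / (2 * Real.pi) ≤ β}.Finite :=
    (Finset.finite_toSet _).subset fun _ h => h.1
  rw [finsum_mem_eq_finite_toFinset_sum _ hfin]
  apply Finset.sum_le_sum_of_subset
  intro s' hs'
  rw [Set.Finite.mem_toFinset] at hs'
  obtain ⟨h1, h2, h3⟩ := hs'
  rw [Finset.mem_filter]
  refine ⟨Finset.mem_coe.1 h1, ?_, ?_⟩
  · by_contra hcon
    push Not at hcon
    have : (s.im - s'.im) * Real.log T / (2 * Real.pi) ≤ 0 := by
      apply div_nonpos_of_nonpos_of_nonneg _ (by positivity)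
      exact mul_nonpos_of_nonpos_of_nonneg hcon hlog.le
    linarith
  · rw [div_le_iff₀ (by positivity)] at h3
    rw [le_div_iff₀ hlog]
    linarith

theorem main (hRH : RiemannHypothesis) (α β : ℝ) (hα : 0 < α) (hαβ : α < β) (h1 : 0 < B β)
    (hD : 1 / 8 ≤ D β) (ε : ℝ) (hε : 0 < ε) : ∃ T₀ : ℝ, ∀ T : ℝ, T₀ ≤ T →
      (N T α β : ℝ) ≤ 1 / 2 * (151 / 1250 / (151 / 1250 + D β ^ 2) + ε) *
        (T / (2 * Real.pi) * Real.log T) := by
  obtain ⟨T₀, hT₀⟩ := Pool.Agent.W503.TCF.pairs_bound hRH β (hα.trans hαβ).le h1 hD ε hε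
  refine ⟨max T₀ 2, fun T hT => ?_⟩
  have h2 := hT₀ T ((le_max_left _ _).trans hT)
  refine le_trans ?_ h2
  exact_mod_cast N_le hRH T α β (lt_of_lt_of_le (by norm_num) ((le_max_right _ _).trans hT)) hα

/-- On the Riemann hypothesis: the upper bound for `N(T; α, β)`, and its numerical values for
`β ≤ 1/100`, `β ≤ 1/40` and `β ≤ 1/20`. -/
theorem result (hRH : RiemannHypothesis) :
    (∀ α β : ℝ, 0 < α → α < β → 0 < B β → 1 / 8 ≤ D β → ∀ ε : ℝ, 0 < ε →
      ∃ T₀ : ℝ, ∀ T : ℝ, T₀ ≤ T → (N T α β : ℝ) ≤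
        1 / 2 * (151 / 1250 / (151 / 1250 + D β ^ 2) + ε) * (T / (2 * Real.pi) * Real.log T)) ∧
    (∀ α β : ℝ, 0 < α → α < β → β ≤ 1 / 100 → ∃ T₀ : ℝ, ∀ T : ℝ, T₀ ≤ T →
      (N T α β : ℝ) ≤ 1532 / 10000 * (T / (2 * Real.pi) * Real.log T)) ∧
    (∀ α β : ℝ, 0 < α → α < β → β ≤ 1 / 40 → ∃ T₀ : ℝ, ∀ T : ℝ, T₀ ≤ T →
      (N T α β : ℝ) ≤ 1542 / 10000 * (T / (2 * Real.pi) * Real.log T)) ∧
    (∀ α β : ℝ, 0 < α → α < β → β ≤ 1 / 20 → ∃ T₀ : ℝ, ∀ T : ℝ, T₀ ≤ T →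
      (N T α β : ℝ) ≤ 1577 / 10000 * (T / (2 * Real.pi) * Real.log T)) := by
  have hpi := Real.pi_pos
  have key : ∀ (b c : ℝ), b ≤ 1 / 10 →
      151 / 1250 / (151 / 1250 + (2 * (53 / 60 - 79 / 600 * (98697 / 10000) * b ^ 2) ^ 2 -
        1037 / 1000) ^ 2) < 2 * c →
      1 / 8 ≤ 2 * (53 / 60 - 79 / 600 * (98697 / 10000) * b ^ 2) ^ 2 - 1037 / 1000 →
      ∀ α β : ℝ, 0 < α → α < β → β ≤ b → ∃ T₀ : ℝ, ∀ T : ℝ, T₀ ≤ T →
      (N T α β : ℝ) ≤ c * (T / (2 * Real.pi) * Real.log T) := by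
    intro b c hb hc hD α β hα hαβ hβ
    obtain ⟨h1, h2, h3⟩ := Pool.Agent.W503.TCF.num_bound β b _ (2 * c) (hα.trans hαβ).le hβ hb rfl
      hc hD
    obtain ⟨T₀, hT₀⟩ := main hRH α β hα hαβ h1 h2 _ (sub_pos.2 h3)
    refine ⟨max T₀ 1, fun T hT => ?_⟩
    have hT1 : 1 ≤ T := (le_max_right _ _).trans hT
    have hlog : 0 ≤ Real.log T := Real.log_nonneg hT1
    refine (hT₀ T ((le_max_left _ _).trans hT)).trans ?_
    apply mul_le_mul_of_nonneg_right _ (by positivity)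
    unfold D B
    linarith
  refine ⟨fun α β hα hαβ h1 hD ε hε => main hRH α β hα hαβ h1 hD ε hε, ?_, ?_, ?_⟩
  · exact key (1 / 100) (1532 / 10000) (by norm_num) (by norm_num) (by norm_num)
  · exact key (1 / 40) (1542 / 10000) (by norm_num) (by norm_num) (by norm_num)
  · exact key (1 / 20) (1577 / 10000) (by norm_num) (by norm_num) (by norm_num)

end Pool.Agent.Results.MP_8958e8_nt.ClosePairsTriple
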