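import Pool.Agent.W201.Asym
import Pool.Agent.H370R2.DirGood

/-!
# Every window of length 7/5 contains a positive proportion of pairs of zeros, unconditionally

No hypothesis is assumed.  For the Riemann zeta function and for all large `T`, uniformly for
`0 ≤ α < β ≤ κ T log T`: if `β - α ≥ 7/5` then the number of pairs of ordinates in `(0, T]` whose
difference lies between `α` and `β` times the mean spacing `2π / log T` is at least
`(β - α)/2500 * (T/2π) log T`, and at least `(β - α)/32 * (T/2π) log T` if `β - α ≥ 2`.  This holds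
already for the pairs of simple zeros on the critical line.  The same is proved for the primitive
Dirichlet L-functions, in every interval `(T, T + H]` with `T ^ (1 - δ) ≤ H ≤ T`.

Idea of the proof.  Let `x_1 < x_2 < …` be the ordinates of the simple critical zeros which remain
after the removal of one point of every pair with difference in the window `(a, a + L)`.
The trace inequality with the Montgomery-Taylor kernel `φ` and a tridiagonal test matrix gives
`(2 - c_MT⁻¹) N ≤ (number of removed points) + ∑ e(x_{i+1} - x_i)` with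
`e(g) = 1 - 4 t φ(g) + 2 t²`, where `|t| ≤ 1/2` may be chosen for every gap.
Let `U` be the `L/2`-neighbourhood of the points and `W` the set of the points whose
`L/2`-neighbourhood is contained in `U`.  Then `U` and `W + a + L/2` are disjoint, so that
`|U| + |W|` is at most the length of the interval, and this bounds the sum over the gaps.
-/

open Filter Topology Complex

namespace Pool.Agent.Results.MP_8958e8_nt.EveryWindow

/-- the nontrivial zeros of `F` with ordinate in `(T₁, T₂]` -/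
def zeros (F : ℂ → ℂ) (T₁ T₂ : ℝ) : Set ℂ :=
  {s : ℂ | F s = 0 ∧ 0 < s.re ∧ s.re < 1 ∧ T₁ < s.im ∧ s.im ≤ T₂}

/-- the multiplicity of a zero -/
noncomputable def mult (F : ℂ → ℂ) (s : ℂ) : ℕ := analyticOrderNatAt F s

/-- the number of ordered pairs of zeros in `zeros F T₁ T₂`, counted with multiplicity, with
difference of the ordinates times `log τ / 2π` in `[α, β]` -/
noncomputable def N (F : ℂ → ℂ) (τ T₁ T₂ α β : ℝ) : ℕ :=
  ∑ᶠ s ∈ zeros F T₁ T₂, ∑ᶠ s' ∈ {s' : ℂ | s' ∈ zeros F T₁ T₂ ∧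
    α ≤ (s.im - s'.im) * Real.log τ / (2 * Real.pi) ∧
    (s.im - s'.im) * Real.log τ / (2 * Real.pi) ≤ β}, mult F s * mult F s'

/-- `x` is the ordinate in `(T₁, T₂]` of a simple zero of `F` on the critical line -/
def IsSimpleOrd (F : ℂ → ℂ) (T₁ T₂ x : ℝ) : Prop :=
  (1 / 2 + x * I : ℂ) ∈ zeros F T₁ T₂ ∧ mult F (1 / 2 + x * I : ℂ) = 1

/-- the number of ordered pairs `(x, y)` of ordinates in `(T₁, T₂]` of simple zeros of `F` on the
critical line with `(x - y) * log τ / 2π` in the open interval `(α, β)` -/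
noncomputable def Nsimple (F : ℂ → ℂ) (τ T₁ T₂ α β : ℝ) : ℕ :=
  {p : ℝ × ℝ | IsSimpleOrd F T₁ T₂ p.1 ∧ IsSimpleOrd F T₁ T₂ p.2 ∧
    α < (p.1 - p.2) * Real.log τ / (2 * Real.pi) ∧
    (p.1 - p.2) * Real.log τ / (2 * Real.pi) < β}.ncard

lemma zeros_eq (F : ℂ → ℂ) (T₁ T₂ : ℝ) : zeros F T₁ T₂ = H370.zset F T₁ T₂ := by
  ext s
  simp only [zeros, H370.zset, Set.mem_ofPred_eq]
  tauto

/-- modulus `1`: the Riemann zeta function -/
theorem zeta_case (χ : DirichletCharacter ℂ 1) :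
    χ.IsPrimitive ∧ DirichletCharacter.LFunction χ = riemannZeta := by
  refine ⟨?_, DirichletCharacter.LFunction_modOne_eq⟩
  rw [DirichletCharacter.level_one' χ rfl]
  exact DirichletCharacter.isPrimitive_one_level_one

/-- the sets of zeros of zeta are finite -/
theorem zeros_finite_zeta (T : ℝ) : (zeros riemannZeta 0 T).Finite := by
  rw [zeros_eq]
  exact H370.zeta_zeros_finite T

/-- the sets of zeros of the L-functions are finite -/
theorem zeros_finite {q : ℕ} [NeZero q] (χ : DirichletCharacter ℂ q) (hχ : χ.IsPrimitive)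
    (T₁ T₂ : ℝ) (hT : 1 ≤ T₁) : (zeros (DirichletCharacter.LFunction χ) T₁ T₂).Finite := by
  rw [zeros_eq]
  exact H370.zset_finite (H370.good_dirichlet χ hχ) T₁ T₂ hT

lemma ord_finite {F : ℂ → ℂ} {T₁ T₂ : ℝ} (hfin : (zeros F T₁ T₂).Finite) :
    {x : ℝ | IsSimpleOrd F T₁ T₂ x}.Finite := by
  refine Set.Finite.of_finite_image (f := fun x : ℝ => (1 / 2 + x * I : ℂ))
    (hfin.subset ?_) ?_
  · rintro s ⟨x, hx, rfl⟩
    exact hx.1
  · intro x _ y _ hxy
    have := congrArg Complex.im hxy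
    simpa using this

lemma pairs_finite {F : ℂ → ℂ} {T₁ T₂ : ℝ} (hfin : (zeros F T₁ T₂).Finite) (τ α β : ℝ) :
    {p : ℝ × ℝ | IsSimpleOrd F T₁ T₂ p.1 ∧ IsSimpleOrd F T₁ T₂ p.2 ∧
      α < (p.1 - p.2) * Real.log τ / (2 * Real.pi) ∧
      (p.1 - p.2) * Real.log τ / (2 * Real.pi) < β}.Finite :=
  ((ord_finite hfin).prod (ord_finite hfin)).subset fun _ hp => ⟨hp.1, hp.2.1⟩

lemma PC_eq (S : Finset ℝ) (a b : ℝ) : Pool.Agent.W201.PC S a b =
    ((S ×ˢ S).filter (fun p : ℝ × ℝ => a < p.1 - p.2 ∧ p.1 - p.2 < b)).card := by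
  classical
  unfold Pool.Agent.W201.PC
  simp only [Finset.card_filter]
  rw [Finset.sum_product]

/-- the pairs in a finite set of simple ordinates -/
lemma PC_le {F : ℂ → ℂ} {T₁ T₂ τ α β : ℝ} (hfin : (zeros F T₁ T₂).Finite) (hτ : 1 < τ)
    (S : Finset ℝ) (hS : ∀ x ∈ S, IsSimpleOrd F T₁ T₂ x) :
    Pool.Agent.W201.PC S (2 * Real.pi * α / Real.log τ) (2 * Real.pi * β / Real.log τ) ≤
      Nsimple F τ T₁ T₂ α β := by
  classical
  have hlog : 0 < Real.log τ := Real.log_pos hτ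
  have hpi := Real.pi_pos
  rw [PC_eq, ← Set.ncard_coe_finset]
  apply Set.ncard_le_ncard _ (pairs_finite hfin τ α β)
  intro p hp
  rw [Finset.mem_coe, Finset.mem_filter, Finset.mem_product] at hp
  obtain ⟨⟨h1, h2⟩, h3, h4⟩ := hp
  refine ⟨hS _ h1, hS _ h2, ?_, ?_⟩
  · rw [lt_div_iff₀ (by positivity)]
    rw [div_lt_iff₀ hlog] at h3
    linarith
  · rw [div_lt_iff₀ (by positivity)]
    rw [lt_div_iff₀ hlog] at h4
    linarith

/-- the pairs of simple critical zeros are among all the pairs -/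
lemma Nsimple_le {F : ℂ → ℂ} {T₁ T₂ : ℝ} (hfin : (zeros F T₁ T₂).Finite) (τ α β : ℝ) :
    Nsimple F τ T₁ T₂ α β ≤ N F τ T₁ T₂ α β := by
  classical
  set Z := hfin.toFinset with hZ
  set w : ℂ → ℂ → Prop := fun s s' => α ≤ (s.im - s'.im) * Real.log τ / (2 * Real.pi) ∧
      (s.im - s'.im) * Real.log τ / (2 * Real.pi) ≤ β with hw
  have hN : N F τ T₁ T₂ α β = ∑ s ∈ Z, ∑ s' ∈ Z.filter (fun s' => w s s'),
      mult F s * mult F s' := by
    unfold N
    rw [finsum_mem_eq_finite_toFinset_sum _ hfin]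
    refine Finset.sum_congr rfl fun s _ => ?_
    have hfin' : {s' : ℂ | s' ∈ zeros F T₁ T₂ ∧
        α ≤ (s.im - s'.im) * Real.log τ / (2 * Real.pi) ∧
        (s.im - s'.im) * Real.log τ / (2 * Real.pi) ≤ β}.Finite := hfin.subset fun _ h => h.1
    rw [finsum_mem_eq_finite_toFinset_sum _ hfin']
    refine Finset.sum_congr ?_ fun _ _ => rfl
    ext s'
    rw [Set.Finite.mem_toFinset, Finset.mem_filter, hZ, Set.Finite.mem_toFinset]
    rfl
  have hN2 : N F τ T₁ T₂ α β =
      ∑ p ∈ (Z ×ˢ Z).filter (fun p : ℂ × ℂ => w p.1 p.2), mult F p.1 * mult F p.2 := by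
    rw [hN, Finset.sum_filter, Finset.sum_product]
    refine Finset.sum_congr rfl fun s _ => ?_
    rw [Finset.sum_filter]
  rw [hN2]
  have hP := pairs_finite hfin τ α β
  unfold Nsimple
  rw [Set.ncard_eq_toFinset_card _ hP]
  set g : ℝ × ℝ → ℂ × ℂ := fun p => (1 / 2 + p.1 * I, 1 / 2 + p.2 * I) with hg
  have him : ∀ x : ℝ, (1 / 2 + (x : ℂ) * I).im = x := by intro x; simp
  have hinj : Function.Injective g := by
    intro p p' h
    have h1 := congrArg (fun z : ℂ × ℂ => z.1.im) h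
    have h2 := congrArg (fun z : ℂ × ℂ => z.2.im) h
    simp only [hg, him] at h1 h2
    exact Prod.ext h1 h2
  rw [← Finset.card_image_of_injective _ hinj, Finset.card_eq_sum_ones]
  have hsub : hP.toFinset.image g ⊆ (Z ×ˢ Z).filter (fun p : ℂ × ℂ => w p.1 p.2) := by
    intro z hz
    obtain ⟨p, hp, rfl⟩ := Finset.mem_image.mp hz
    rw [Set.Finite.mem_toFinset] at hp
    obtain ⟨h1, h2, h3, h4⟩ := hp
    rw [Finset.mem_filter, Finset.mem_product, hZ, Set.Finite.mem_toFinset,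
      Set.Finite.mem_toFinset]
    refine ⟨⟨h1.1, h2.1⟩, ?_⟩
    simp only [hw, hg, him]
    exact ⟨h3.le, h4.le⟩
  refine (Finset.sum_le_sum fun z hz => ?_).trans (Finset.sum_le_sum_of_subset hsub)
  obtain ⟨p, hp, rfl⟩ := Finset.mem_image.mp hz
  rw [Set.Finite.mem_toFinset] at hp
  simp only [hg]
  rw [hp.1.2, hp.2.1.2]

/-! ### Short intervals -/

/-- one tier, short intervals -/
lemma short_tier {q : ℕ} [NeZero q] (χ : DirichletCharacter ℂ q) (hχ : χ.IsPrimitive)
    {L ν δ c : ℝ} (hT : Pool.Agent.W201.Tier L ν δ c) :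
    ∃ d : ℝ, 0 < d ∧ d < 1 ∧ ∃ κ : ℝ, 0 < κ ∧ ∃ T₀ : ℝ, 10 ≤ T₀ ∧ ∀ T : ℝ, T₀ ≤ T → ∀ H : ℝ,
      T ^ (1 - d) ≤ H → H ≤ T → ∀ α β : ℝ, 0 ≤ α → β ≤ κ * (H * Real.log T) → L ≤ β - α →
        (β - α) * (c / (2 * L)) * (H / (2 * Real.pi) * Real.log T) ≤
          (Nsimple (DirichletCharacter.LFunction χ) T T (T + H) α β : ℝ) := by
  obtain ⟨d, hd0, hd1, κ, hκ, T₀, hT₀, h⟩ :=
    Pool.Agent.W201.tier_main (H370.good_dirichlet χ hχ) hT
  have hpi := Real.pi_pos
  refine ⟨d, hd0, hd1, κ / (2 * Real.pi), by positivity, T₀, hT₀, fun T hTT H hH hHT α β hα hβ hL => ?_⟩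
  obtain ⟨S, hS1, hS2⟩ := h T hTT H hH hHT
  have hT10 : 10 ≤ T := hT₀.trans hTT
  have hlog : 0 < Real.log T := Real.log_pos (by linarith)
  have hL0 := hT.L0
  have h1 := PC_le (α := α) (β := β) (zeros_finite χ hχ T (T + H) (by linarith))
    (show 1 < T by linarith) S (by
      intro x hx
      obtain ⟨a1, a2, a3, a4⟩ := hS1 x hx
      rw [mul_comm] at a3 a4
      exact ⟨by rw [zeros_eq]; exact a3, a4⟩)
  have h2 := hS2 (2 * Real.pi * α / Real.log T) (2 * Real.pi * β / Real.log T) (by positivity)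
    (by
      rw [div_le_iff₀ hlog]
      have : 2 * Real.pi * β ≤ 2 * Real.pi * (κ / (2 * Real.pi) * (H * Real.log T)) :=
        mul_le_mul_of_nonneg_left hβ (by positivity)
      have e : 2 * Real.pi * (κ / (2 * Real.pi) * (H * Real.log T)) = κ * H * Real.log T := by
        field_simp
      linarith)
    (by
      rw [← sub_div, ← mul_sub, mul_div_assoc', div_le_div_iff_of_pos_right hlog]
      nlinarith)
  have e : (2 * Real.pi * β / Real.log T - 2 * Real.pi * α / Real.log T) /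
      (2 * (L * (2 * Real.pi / Real.log T))) * (c * (H / (2 * Real.pi) * Real.log T)) =
      (β - α) * (c / (2 * L)) * (H / (2 * Real.pi) * Real.log T) := by
    field_simp
  rw [e] at h2
  refine h2.trans ?_
  exact_mod_cast h1

/-! ### The whole range for zeta -/

/-- the ordinates in `(0, T]` of the simple critical zeros of zeta -/
noncomputable def AF (T : ℝ) : Finset ℝ := (ord_finite (zeros_finite_zeta T)).toFinset

lemma mem_AF {T x : ℝ} : x ∈ AF T ↔ IsSimpleOrd riemannZeta 0 T x := by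
  unfold AF
  rw [Set.Finite.mem_toFinset]
  rfl

lemma dyadic {L c κ T₀ : ℝ} (hL : 0 < L) (hc : 0 ≤ c) (hκ : 0 < κ) (hT₀ : 10 ≤ T₀)
    (h : ∀ T : ℝ, T₀ ≤ T → ∃ S : Finset ℝ,
        (∀ x ∈ S, T < x ∧ x ≤ T + T ∧ (1 / 2 + I * x : ℂ) ∈ H370.zset riemannZeta T (T + T) ∧
          H370.mult riemannZeta (1 / 2 + I * x) = 1) ∧
        ∀ a b : ℝ, 0 ≤ a → b ≤ κ * T → L * (2 * Real.pi / Real.log T) ≤ b - a →
          (b - a) / (2 * (L * (2 * Real.pi / Real.log T))) * (c * (T / (2 * Real.pi) * Real.log T))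
            ≤ Pool.Agent.W201.PC S a b) :
    ∀ J : ℕ, ∀ T : ℝ, T₀ * 2 ^ J ≤ T → ∀ a b : ℝ, 0 ≤ a → b ≤ κ * (T / 2 ^ J) →
      L * (2 * Real.pi / Real.log (T / 2 ^ J)) ≤ b - a →
      c / (2 * L) * (b - a) * ((1 - 1 / 2 ^ J) * T) * (Real.log (T / 2 ^ J) / (2 * Real.pi)) ^ 2 ≤
        Pool.Agent.W201.PC (AF T) a b := by
  have hpi := Real.pi_pos
  intro J
  induction J with
  | zero =>
    intro T _ a b _ _ _
    simp
  | succ J ih =>
    intro T hT a b ha hb hab
    have h2J : (1 : ℝ) ≤ 2 ^ J := one_le_pow₀ (by norm_num)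
    have h2J0 : (0 : ℝ) < 2 ^ J := by positivity
    have hpow : (2 : ℝ) ^ (J + 1) = 2 ^ J * 2 := pow_succ _ _
    have hT2 : T₀ * 2 ^ J ≤ T / 2 := by
      rw [hpow] at hT
      linarith
    have hT20 : T₀ ≤ T / 2 := by nlinarith
    have hTpos : 0 < T := by linarith
    have e1 : T / 2 / 2 ^ J = T / 2 ^ (J + 1) := by rw [hpow, div_div, mul_comm]
    set l := Real.log (T / 2 ^ (J + 1)) with hl
    have hTJ : T₀ ≤ T / 2 ^ (J + 1) := by
      rw [le_div_iff₀ (by positivity)]; exact hT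
    have hl0 : 0 < l := Real.log_pos (by linarith)
    have hll : l ≤ Real.log (T / 2) := by
      apply Real.log_le_log (by linarith)
      rw [← e1]
      exact div_le_self (by linarith) h2J
    have h1 := ih (T / 2) hT2 a b ha (by rw [e1]; exact hb) (by rw [e1]; exact hab)
    rw [e1, ← hl] at h1
    obtain ⟨S, hS1, hS2⟩ := h (T / 2) hT20
    have hb2 : b ≤ κ * (T / 2) := by
      refine hb.trans (mul_le_mul_of_nonneg_left ?_ hκ.le)
      rw [← e1]
      exact div_le_self (by linarith) h2J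
    have hab2 : L * (2 * Real.pi / Real.log (T / 2)) ≤ b - a := by
      refine le_trans ?_ hab
      apply mul_le_mul_of_nonneg_left _ hL.le
      exact div_le_div_of_nonneg_left (by positivity) hl0 hll
    have h2 := hS2 a b ha hb2 hab2
    have hba : 0 ≤ b - a := le_trans (by positivity) hab
    -- the bound on the upper half
    have h3 : c / (2 * L) * (b - a) * (1 / 2 * T) * (l / (2 * Real.pi)) ^ 2 ≤
        Pool.Agent.W201.PC S a b := by
      refine le_trans ?_ h2
      have hl2 : 0 < Real.log (T / 2) := hl0.trans_le hll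
      have e2 : (b - a) / (2 * (L * (2 * Real.pi / Real.log (T / 2)))) *
          (c * (T / 2 / (2 * Real.pi) * Real.log (T / 2))) =
          c / (2 * L) * (b - a) * (1 / 2 * T) * (Real.log (T / 2) / (2 * Real.pi)) ^ 2 := by
        field_simp
      rw [e2]
      apply mul_le_mul_of_nonneg_left _ (by positivity)
      exact pow_le_pow_left₀ (by positivity) (div_le_div_of_nonneg_right hll (by positivity)) 2
    -- disjoint union
    have hsubS : S ⊆ AF T := by
      intro x hx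
      obtain ⟨a1, a2, a3, a4⟩ := hS1 x hx
      rw [mul_comm] at a3 a4
      refine mem_AF.mpr ⟨?_, a4⟩
      refine ⟨a3.2.2.2.2, a3.1, a3.2.1, ?_, ?_⟩
      · have := a3.2.2.1
        linarith
      · have := a3.2.2.2.1
        linarith
    have hsubA : AF (T / 2) ⊆ AF T := by
      intro x hx
      have h5 := mem_AF.mp hx
      exact mem_AF.mpr ⟨⟨h5.1.1, h5.1.2.1, h5.1.2.2.1, h5.1.2.2.2.1,
        h5.1.2.2.2.2.trans (by linarith)⟩, h5.2⟩
    have hdisj : Disjoint S (AF (T / 2)) := by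
      rw [Finset.disjoint_left]
      intro x hx hx'
      have h5 := (mem_AF.mp hx').1.2.2.2.2
      have him : (1 / 2 + (x : ℂ) * I).im = x := by simp
      rw [him] at h5
      linarith [(hS1 x hx).1]
    have h6 := Pool.Agent.W201.PC_union hsubS hsubA hdisj a b
    have h7 : (Pool.Agent.W201.PC S a b : ℝ) + Pool.Agent.W201.PC (AF (T / 2)) a b ≤
      Pool.Agent.W201.PC (AF T) a b := by exact_mod_cast h6
    refine le_trans (le_of_eq ?_) ((add_le_add h3 h1).trans h7)
    rw [hpow]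
    field_simp
    ring

/-- one tier, the whole range -/
lemma full_tier {L ν δ c B : ℝ} (hT : Pool.Agent.W201.Tier L ν δ c) (hB : L ≤ B * (9997 / 10000)) :
    ∃ κ : ℝ, 0 < κ ∧ ∃ T₀ : ℝ, 10 ≤ T₀ ∧ ∀ T : ℝ, T₀ ≤ T →
      ∀ α β : ℝ, 0 ≤ α → β ≤ κ * (T * Real.log T) → B ≤ β - α →
        (β - α) * (c / (2 * L)) * (49 / 50 * (T / (2 * Real.pi) * Real.log T)) ≤
          (Nsimple riemannZeta T 0 T α β : ℝ) := by
  obtain ⟨d, hd0, hd1, κ, hκ, T₁, hT₁, h⟩ := Pool.Agent.W201.tier_main H370.good_zeta hT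
  have hpi := Real.pi_pos
  have hL0 := hT.L0
  have hc0 := hT.c0
  have hdy := dyadic (T₀ := T₁) hL0 hc0 hκ hT₁ (fun T hTT => by
    have h1 : T ^ (1 - d) ≤ T := by
      calc T ^ (1 - d) ≤ T ^ (1 : ℝ) := Real.rpow_le_rpow_of_exponent_le (by linarith) (by linarith)
        _ = T := Real.rpow_one T
    exact h T hTT T h1 le_rfl)
  -- large `T`
  obtain ⟨T₂, hT₂⟩ := (Real.tendsto_log_atTop.eventually_ge_atTop
    (10000 * Real.log 128)).exists_forall_of_atTop
  refine ⟨κ / (128 * (2 * Real.pi)), by positivity, max (T₁ * 2 ^ 7) (max T₂ 10),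
    (le_max_right _ _).trans (le_max_right _ _), fun T hTT α β hα hβ hBα => ?_⟩
  have hTT1 : T₁ * 2 ^ 7 ≤ T := (le_max_left _ _).trans hTT
  have hTT2 := hT₂ T (((le_max_left _ _).trans (le_max_right _ _)).trans hTT)
  have hT10 : 10 ≤ T := ((le_max_right _ _).trans (le_max_right _ _)).trans hTT
  have hlog : 0 < Real.log T := Real.log_pos (by linarith)
  have h128 : 0 < Real.log 128 := Real.log_pos (by norm_num)
  have hlr : Real.log (T / 2 ^ 7) = Real.log T - Real.log 128 := by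
    rw [Real.log_div (by linarith) (by norm_num)]; norm_num
  have hlr1 : 9999 / 10000 * Real.log T ≤ Real.log (T / 2 ^ 7) := by rw [hlr]; linarith
  have hlr0 : 0 < Real.log (T / 2 ^ 7) := by
    have : 0 < 9999 / 10000 * Real.log T := by positivity
    linarith
  have hβα : 0 < β - α := by nlinarith
  have h1 := hdy 7 T hTT1 (2 * Real.pi * α / Real.log T) (2 * Real.pi * β / Real.log T)
    (by positivity)
    (by
      rw [div_le_iff₀ hlog]
      have : 2 * Real.pi * β ≤ 2 * Real.pi * (κ / (128 * (2 * Real.pi)) * (T * Real.log T)) :=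
        mul_le_mul_of_nonneg_left hβ (by positivity)
      have e : 2 * Real.pi * (κ / (128 * (2 * Real.pi)) * (T * Real.log T)) =
          κ * (T / 2 ^ 7) * Real.log T := by
        field_simp
        ring
      linarith)
    (by
      rw [← sub_div, ← mul_sub, mul_div_assoc', div_le_div_iff₀ hlr0 hlog]
      have h2 : L * Real.log T ≤ (β - α) * Real.log (T / 2 ^ 7) := by
        have h3 : (β - α) * (9999 / 10000 * Real.log T) ≤ (β - α) * Real.log (T / 2 ^ 7) :=
          mul_le_mul_of_nonneg_left hlr1 hβα.le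
        have h4 : L ≤ (β - α) * (9999 / 10000) := by nlinarith
        nlinarith
      nlinarith)
  have h2 := PC_le (α := α) (β := β) (zeros_finite_zeta T) (show 1 < T by linarith) (AF T)
    (fun x hx => mem_AF.mp hx)
  have h2' : (Pool.Agent.W201.PC (AF T) (2 * Real.pi * α / Real.log T)
    (2 * Real.pi * β / Real.log T) : ℝ) ≤ (Nsimple riemannZeta T 0 T α β : ℝ) := by
    exact_mod_cast h2
  refine le_trans ?_ (h1.trans h2')
  have e1 : 2 * Real.pi * β / Real.log T - 2 * Real.pi * α / Real.log T =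
      2 * Real.pi * (β - α) / Real.log T := by ring
  rw [e1]
  have h5 : (9999 / 10000 * Real.log T / (2 * Real.pi)) ^ 2 ≤
      (Real.log (T / 2 ^ 7) / (2 * Real.pi)) ^ 2 :=
    pow_le_pow_left₀ (by positivity) (div_le_div_of_nonneg_right hlr1 (by positivity)) 2
  have h6 : 0 ≤ c / (2 * L) * (2 * Real.pi * (β - α) / Real.log T) * ((1 - 1 / 2 ^ 7) * T) := by
    apply mul_nonneg (by positivity)
    apply mul_nonneg (by norm_num) (by linarith)
  refine le_trans ?_ (mul_le_mul_of_nonneg_left h5 h6)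
  have e2 : c / (2 * L) * (2 * Real.pi * (β - α) / Real.log T) * ((1 - 1 / 2 ^ 7) * T) *
      (9999 / 10000 * Real.log T / (2 * Real.pi)) ^ 2 =
      (β - α) * (c / (2 * L)) * ((127 / 128 * (9999 / 10000) ^ 2) *
        (T / (2 * Real.pi) * Real.log T)) := by
    field_simp
    ring
  rw [e2]
  apply mul_le_mul_of_nonneg_left _ (by positivity)
  apply mul_le_mul_of_nonneg_right _ (by positivity)
  norm_num

/-- Every window of length at least `7/5` contains a positive proportion of pairs. -/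
theorem result :
    (∃ κ : ℝ, 0 < κ ∧ ∃ T₀ : ℝ, ∀ T : ℝ, T₀ ≤ T → ∀ α β : ℝ, 0 ≤ α → β ≤ κ * (T * Real.log T) →
      (7 / 5 ≤ β - α → (β - α) / 2500 * (T / (2 * Real.pi) * Real.log T) ≤
        (Nsimple riemannZeta T 0 T α β : ℝ)) ∧
      (2 ≤ β - α → (β - α) / 32 * (T / (2 * Real.pi) * Real.log T) ≤
        (Nsimple riemannZeta T 0 T α β : ℝ)) ∧
      Nsimple riemannZeta T 0 T α β ≤ N riemannZeta T 0 T α β) ∧
    (∀ (q : ℕ) [NeZero q] (χ : DirichletCharacter ℂ q), χ.IsPrimitive →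
      ∃ δ : ℝ, 0 < δ ∧ δ < 1 ∧ ∃ κ : ℝ, 0 < κ ∧ ∃ T₀ : ℝ, ∀ T : ℝ, T₀ ≤ T → ∀ H : ℝ,
        T ^ (1 - δ) ≤ H → H ≤ T → ∀ α β : ℝ, 0 ≤ α → β ≤ κ * (H * Real.log T) →
        (7 / 5 ≤ β - α → (β - α) / 2500 * (H / (2 * Real.pi) * Real.log T) ≤
          (Nsimple (DirichletCharacter.LFunction χ) T T (T + H) α β : ℝ)) ∧
        (2 ≤ β - α → (β - α) / 32 * (H / (2 * Real.pi) * Real.log T) ≤
          (Nsimple (DirichletCharacter.LFunction χ) T T (T + H) α β : ℝ)) ∧
        Nsimple (DirichletCharacter.LFunction χ) T T (T + H) α β ≤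
          N (DirichletCharacter.LFunction χ) T T (T + H) α β) := by
  have hpi := Real.pi_pos
  constructor
  · obtain ⟨κ₁, hκ₁, T₁, hT₁, h₁⟩ := full_tier (B := 7 / 5) Pool.Agent.W201.tier1 (by norm_num)
    obtain ⟨κ₂, hκ₂, T₂, hT₂, h₂⟩ := full_tier (B := 2) Pool.Agent.W201.tier2 (by norm_num)
    refine ⟨min κ₁ κ₂, lt_min hκ₁ hκ₂, max T₁ T₂, fun T hT α β hα hβ => ?_⟩
    have hTT1 : T₁ ≤ T := (le_max_left _ _).trans hT
    have hTT2 : T₂ ≤ T := (le_max_right _ _).trans hT
    have hlog : 0 < Real.log T := Real.log_pos (by linarith)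
    have hTL : 0 ≤ T * Real.log T := by
      apply mul_nonneg _ hlog.le; linarith
    have hβ1 : β ≤ κ₁ * (T * Real.log T) :=
      hβ.trans (mul_le_mul_of_nonneg_right (min_le_left _ _) hTL)
    have hβ2 : β ≤ κ₂ * (T * Real.log T) :=
      hβ.trans (mul_le_mul_of_nonneg_right (min_le_right _ _) hTL)
    have hM : 0 ≤ T / (2 * Real.pi) * Real.log T := by
      have : 0 ≤ T := by linarith
      positivity
    refine ⟨fun h => ?_, fun h => ?_, Nsimple_le (zeros_finite_zeta T) _ _ _⟩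
    · refine le_trans ?_ (h₁ T hTT1 α β hα hβ1 h)
      have h3 : 0 ≤ (β - α) * (T / (2 * Real.pi) * Real.log T) := mul_nonneg (by linarith) hM
      norm_num
      nlinarith
    · refine le_trans ?_ (h₂ T hTT2 α β hα hβ2 h)
      have h3 : 0 ≤ (β - α) * (T / (2 * Real.pi) * Real.log T) := mul_nonneg (by linarith) hM
      norm_num
      nlinarith
  · intro q _ χ hχ
    obtain ⟨d₁, hd₁, hd₁', κ₁, hκ₁, T₁, hT₁, h₁⟩ := short_tier χ hχ Pool.Agent.W201.tier1
    obtain ⟨d₂, hd₂, hd₂', κ₂, hκ₂, T₂, hT₂, h₂⟩ := short_tier χ hχ Pool.Agent.W201.tier2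
    refine ⟨min d₁ d₂, lt_min hd₁ hd₂, (min_le_left _ _).trans_lt hd₁', min κ₁ κ₂,
      lt_min hκ₁ hκ₂, max T₁ T₂, fun T hT H hH hHT α β hα hβ => ?_⟩
    have hTT1 : T₁ ≤ T := (le_max_left _ _).trans hT
    have hTT2 : T₂ ≤ T := (le_max_right _ _).trans hT
    have hlog : 0 < Real.log T := Real.log_pos (by linarith)
    have hH0 : 0 ≤ H := (Real.rpow_nonneg (by linarith) _).trans hH
    have hH1 : T ^ (1 - d₁) ≤ H := (Real.rpow_le_rpow_of_exponent_le (by linarith)
      (by linarith [min_le_left d₁ d₂])).trans hH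
    have hH2 : T ^ (1 - d₂) ≤ H := (Real.rpow_le_rpow_of_exponent_le (by linarith)
      (by linarith [min_le_right d₁ d₂])).trans hH
    have hTL : 0 ≤ H * Real.log T := mul_nonneg hH0 hlog.le
    have hβ1 : β ≤ κ₁ * (H * Real.log T) :=
      hβ.trans (mul_le_mul_of_nonneg_right (min_le_left _ _) hTL)
    have hβ2 : β ≤ κ₂ * (H * Real.log T) :=
      hβ.trans (mul_le_mul_of_nonneg_right (min_le_right _ _) hTL)
    have hM : 0 ≤ H / (2 * Real.pi) * Real.log T := by positivity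
    refine ⟨fun h => ?_, fun h => ?_,
      Nsimple_le (zeros_finite χ hχ T (T + H) (by linarith)) _ _ _⟩
    · refine le_trans ?_ (h₁ T hTT1 H hH1 hHT α β hα hβ1 (le_trans (by norm_num) h))
      have h3 : 0 ≤ (β - α) * (H / (2 * Real.pi) * Real.log T) := mul_nonneg (by linarith) hM
      norm_num
      nlinarith
    · refine le_trans ?_ (h₂ T hTT2 H hH2 hHT α β hα hβ2 (le_trans (by norm_num) h))
      have h3 : 0 ≤ (β - α) * (H / (2 * Real.pi) * Real.log T) := mul_nonneg (by linarith) hM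
      norm_num
      nlinarith

end Pool.Agent.Results.MP_8958e8_nt.EveryWindow
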