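import Pool.Agent.W207.SW.Main

/-!
# Pair correlation from one-sided bounds for two window lengths at sparse positions

No hypothesis is assumed.  Let `L` be a set of positive numbers that generates a dense subgroup of
the reals, for instance two numbers with irrational ratio.  Suppose that almost all zeros are on the
critical line and that for each length `ℓ` in `L` there are `C` and `δ, ε > 0` and arbitrarily large
`R` - a sequence that may be as sparse as we like - such that the number of pairs of zeros with
normalised difference in the window `[a, a + ℓ]` satisfies one of the two one-sided bounds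

`N(T; a, a+ℓ) ≥ (∫ F - C exp(-εR) - o(1)) T log T / 2π`, or
`N(T; a, a+ℓ) ≤ (∫ F + C exp(-εR) + o(1)) T log T / 2π`

for the positions `a` in `[R, (1+δ)R]`.  Then `N(T; α, β) ~ (T log T / 2π) ∫_α^β F` for all
`0 < α < β`.  Conversely the pair correlation conjecture implies all this.  So the correlations of
the zeros at bounded distances are determined by one-sided information at arbitrarily large
distances, on a sparse set of scales.

Idea of the proof.  Along a sequence of heights the deviation of the pair counts has a limit `O`,
extended to an odd function; `E(v) = O(v + ℓ/2) - O(v - ℓ/2)` is even and has a spectral gap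
(Montgomery's theorem for small supports, which holds if almost all zeros are on the line).  Test
functions with compactly supported transform that are exponentially small outside `[R, (1+δ)R]`
turn the one-sided bound into `∫ |E| ≤ exp(-ε'R)` over the middle third of this interval, and show
that the transform `f` of the part of `E` below `R` satisfies `|f(ξ)| ≤ exp(-κ R (Λ - |ξ|))` inside
the gap `(-Λ, Λ)`.  This entire function of exponential type `2πR` is small on a longer interval:
by the Phragmen-Lindelöf principle `log |f|` is at most `2πR |y| - κR U(z)`, `U` the Poisson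
extension of the tent function, whose normal derivative is logarithmically large at `±Λ`, and a
weighted mean value over a small circle gives `|f| ≤ exp(-cR)` beyond `Λ`.  So the gap can be
enlarged, hence it is the whole line and `E = 0`: `O` has the periods `ℓ`, it is a monotone function
minus a continuous one, so it is constant on the positive half line, and the constant is `0`.
-/

open Filter Topology

namespace Pool.Agent.Results.MP_8958e8_nt.SparseWindows

/-- the multiplicity of `s` as a zero of the Riemann zeta function -/
noncomputable def mult (s : ℂ) : ℕ := analyticOrderNatAt riemannZeta s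

/-- the nontrivial zeros of `ζ` with ordinate in `[0, T]` -/
def zeros (T : ℝ) : Set ℂ := {s : ℂ | riemannZeta s = 0 ∧ 0 < s.re ∧ s.re < 1 ∧ 0 ≤ s.im ∧ s.im ≤ T}

/-- `N(T; α, β)`: the number of pairs of ordinates in `[0, T]`, counted with multiplicity, whose
difference times `log T / 2π` lies in `[α, β]` -/
noncomputable def N (T α β : ℝ) : ℕ :=
  ∑ᶠ s ∈ zeros T, ∑ᶠ s' ∈ {s' : ℂ | s' ∈ zeros T ∧
    α ≤ (s.im - s'.im) * Real.log T / (2 * Real.pi) ∧
    (s.im - s'.im) * Real.log T / (2 * Real.pi) ≤ β}, mult s * mult s'

/-- the sets of zeros are finite -/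
theorem finite_zeros (T : ℝ) : (zeros T).Finite := W207.PR.Zc_finite T

/-- the nontrivial zeros of `ζ` with ordinate in `(0, T]` -/
def zerosP (T : ℝ) : Set ℂ := {s : ℂ | riemannZeta s = 0 ∧ 0 < s.re ∧ s.re < 1 ∧ 0 < s.im ∧ s.im ≤ T}

/-- the number of zeros with ordinate in `(0, T]`, with multiplicity -/
noncomputable def Nall (T : ℝ) : ℕ := ∑ᶠ s ∈ zerosP T, mult s

/-- the number of zeros with ordinate in `(0, T]` off the critical line, with multiplicity -/
noncomputable def Noff (T : ℝ) : ℕ := ∑ᶠ s ∈ {s : ℂ | s ∈ zerosP T ∧ s.re ≠ 1 / 2}, mult s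

/-- the predicted count `∫_α^β F(u) du`, `F(u) = 1 - (sin πu / πu)²` -/
noncomputable def IF (α β : ℝ) : ℝ :=
  ∫ u in α..β, (1 - (Real.sin (Real.pi * u) / (Real.pi * u)) ^ 2)

/-- the pair correlation conjecture, `T → ∞` along the filter `l` -/
def PairCorrelation (l : Filter ℝ) : Prop := ∀ α β : ℝ, 0 < α → α < β →
  Tendsto (fun T => (N T α β : ℝ) / (T * Real.log T / (2 * Real.pi))) l (𝓝 (IF α β))

/-- almost all zeros are on the critical line -/
def AlmostAllCritical (l : Filter ℝ) : Prop := Tendsto (fun T => (Noff T : ℝ) / Nall T) l (𝓝 0)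

/-- the lower bound for the windows `[a, a+ℓ]`, `a ∈ [R, (1+δ)R]`, up to a loss `C exp(-εR)` -/
def LowerAt (l : Filter ℝ) (ℓ δ ε C R : ℝ) : Prop := ∀ a : ℝ, R ≤ a → a ≤ (1 + δ) * R →
  ∀ η : ℝ, 0 < η → ∀ᶠ T in l,
    (IF a (a + ℓ) - C * Real.exp (-(ε * R)) - η) * (T * Real.log T / (2 * Real.pi)) ≤
      N T a (a + ℓ)

/-- the upper bound for the windows `[a, a+ℓ]`, `a ∈ [R, (1+δ)R]`, up to a loss `C exp(-εR)` -/
def UpperAt (l : Filter ℝ) (ℓ δ ε C R : ℝ) : Prop := ∀ a : ℝ, R ≤ a → a ≤ (1 + δ) * R →
  ∀ η : ℝ, 0 < η → ∀ᶠ T in l, (N T a (a + ℓ) : ℝ) ≤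
    (IF a (a + ℓ) + C * Real.exp (-(ε * R)) + η) * (T * Real.log T / (2 * Real.pi))

/-- **Windows of two incommensurable lengths at sparse positions.**  Along every countably generated
filter `l ≤ atTop` (for instance `l = atTop`, or a sequence of heights tending to infinity) and for
every set `L` of positive numbers generating a dense subgroup of `ℝ`: the pair correlation
conjecture for all windows is equivalent to the conjunction of `almost all zeros are on the critical
line` and: for each `ℓ ∈ L` there are `C` and `δ, ε > 0` such that for arbitrarily large `R` the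
lower bound or the upper bound holds for the windows `[a, a+ℓ]` with `a ∈ [R, (1+δ)R]`. -/
theorem result (l : Filter ℝ) [l.IsCountablyGenerated] (hl : l ≤ atTop) (L : Set ℝ)
    (hL : ∀ ℓ ∈ L, 0 < ℓ) (hd : Dense (AddSubgroup.closure L : Set ℝ)) :
    PairCorrelation l ↔ (AlmostAllCritical l ∧ ∀ ℓ ∈ L, ∃ C δ ε : ℝ, 0 < δ ∧ 0 < ε ∧
      ∀ A : ℝ, ∃ R : ℝ, A ≤ R ∧ (LowerAt l ℓ δ ε C R ∨ UpperAt l ℓ δ ε C R)) :=
  W207.SW.mainL l hl L hL hd

end Pool.Agent.Results.MP_8958e8_nt.SparseWindows
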